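import Pool.Agent.E8helper71.CP.Y706.CH.Stm

/-! Job CH-COL2: the local dichotomy (helper167, after the file of helper188 for bicritical maps). -/

set_option autoImplicit false

namespace Pool.Agent.E8helper71.CP.Y167.CH

open Pool.Agent.TH951.W.UB Pool.Agent.TH951.W.UG Pool.Agent.TH951.W.UH Finset Pool.Agent.E8helper71.CP.Y706.CH
open Pool.Agent.E8helper71.CP.Y706.BI (UV eqv fU hh G0 gg rt Av S_TREE)

universe u

theorem window {κ : Type*} [Fintype κ] (v : κ → ℝ) (M : ℕ) (hM : Fintype.card κ < M) (s w : ℝ)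
    (hw : 0 < w) : ∃ i < M, ∀ x : κ, v x < Real.exp (-(s + i * w)) →
      v x ≤ Real.exp (-(s + (i + 1) * w)) := by
  by_contra hcon
  push Not at hcon
  choose f hf using fun i : Fin M => hcon i i.2
  have hinj : Function.Injective f := by
    have aux : ∀ i j : Fin M, (i : ℕ) < j → f i ≠ f j := by
      intro i j hij he
      have h1 := (hf i).2
      have h2 := (hf j).1
      rw [← he] at h2
      have h3 : Real.exp (-(s + (j : ℕ) * w)) ≤ Real.exp (-(s + ((i : ℕ) + 1) * w)) := by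
        apply Real.exp_le_exp.2
        have h4 : ((i : ℕ) : ℝ) + 1 ≤ (j : ℕ) := by exact_mod_cast hij
        nlinarith
      linarith
    intro i j he
    rcases lt_trichotomy (i : ℕ) (j : ℕ) with h | h | h
    · exact absurd he (aux i j h)
    · exact Fin.ext h
    · exact absurd he.symm (aux j i h)
  have h5 := Fintype.card_le_of_injective _ hinj
  rw [Fintype.card_fin] at h5
  omega

theorem pick {Q : Type*} [Fintype Q] (M P : Q → ℝ) (δ t : ℝ) (hM : 1 - δ / 2 ≤ ∑ x, M x)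
    (hP : ∑ x, P x < 1 - δ) (ht : Fintype.card Q * t ≤ δ / 2) : ∃ x, P x + t ≤ M x := by
  by_contra hcon
  push Not at hcon
  have h1 : ∑ x, M x ≤ ∑ x, (P x + t) := Finset.sum_le_sum fun x _ => (hcon x).le
  rw [Finset.sum_add_distrib, Finset.sum_const, Finset.card_univ, nsmul_eq_mul] at h1
  linarith

section

variable {Ω : Type u} [NormedField Ω] [IsUltrametricDist Ω] [IsAlgClosed Ω]

theorem eqv_equiv (hGRN : S_GRN2.{u}) (hnat : NC Ω) (T : HS Ω)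
    (hgs : T.gs = 1) (hd : 2 ≤ T.d) : Equivalence (eqv (Ω := Ω)) := by
  obtain ⟨-, -, -, -, -, hcong, -⟩ := hGRN Ω hnat T hgs hd
  refine ⟨fun X => wd_self _, fun {X Y} h => ?_, fun {X Y Z} h1 h2 => ?_⟩
  · unfold eqv at h ⊢
    rw [wd_comm, h, neg_zero]
  · exact (((hcong X Y h1).2.2.2 Z).2).2 h2

theorem gg_ge (hGRN : S_GRN2.{u}) (hnat : NC Ω) (T : HS Ω)
    (hgs : T.gs = 1) (hd : 2 ≤ T.d)
    {X Y : UV Ω} {s : ℝ} (hne : ¬ eqv X Y) (h : ‖wd X.1 Y.1‖ < Real.exp (-s)) :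
    s - 2 * T.Res ≤ gg T X Y := by
  obtain ⟨hρ0, -, hG0, -⟩ := hGRN Ω hnat T hgs hd
  have hd2 : (2 : ℝ) ≤ T.d := by exact_mod_cast hd
  have hpos : 0 < ‖wd X.1 Y.1‖ := norm_pos_iff.2 hne
  have h1 : Real.log ‖wd X.1 Y.1‖ ≤ -s := by
    have := Real.log_le_log hpos h.le
    rwa [Real.log_exp] at this
  have h2 := (hG0 X).1
  have h3 := (hG0 Y).1
  have h4 : 0 ≤ T.Res / (T.d * ((T.d : ℝ) - 1)) := by
    apply div_nonneg hρ0
    apply mul_nonneg <;> linarith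
  have h5 : T.Res / ((T.d : ℝ) - 1) ≤ T.Res := div_le_self hρ0 (by linarith)
  unfold gg
  linarith

theorem gg_le (hGRN : S_GRN2.{u}) (hnat : NC Ω) (T : HS Ω)
    (hgs : T.gs = 1) (hd : 2 ≤ T.d)
    {X Y : UV Ω} (h : ‖wd X.1 Y.1‖ = 1) : gg T X Y ≤ 2 * T.Res := by
  obtain ⟨hρ0, -, hG0, -⟩ := hGRN Ω hnat T hgs hd
  have hd2 : (2 : ℝ) ≤ T.d := by exact_mod_cast hd
  have h2 := (hG0 X).2
  have h3 := (hG0 Y).2
  have h5 : T.Res / (T.d * ((T.d : ℝ) - 1)) ≤ T.Res := div_le_self hρ0 (by nlinarith)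
  unfold gg
  rw [h, Real.log_one]
  linarith

open Classical in
theorem generic (hGRN : S_GRN2.{u}) (hCOV : S_COV2.{u}) (hTREE : S_TREE.{u})
    (hnat : NC Ω) (T : HS Ω) (hgs : T.gs = 1) (hTd : 2 ≤ T.d)
    (hρ : 0 < T.Res) (D : JD T) (δ' : ℝ) (CC : ℝ)
    (hLLN : ∀ (X : Type u) (f : X → X) (r : X → Fin T.d → X)
      (E : X → X → Prop), Equivalence E → (∀ x y, E x y → E (f x) (f y)) →
      (∀ y l, E (f (r y l)) y) → ∀ g : X → X → ℝ, (∀ x y, g x y = g y x) →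
      (∀ x x' y, E x x' → g x y = g x' y) →
      (∀ x y, ¬ E (f x) y → ∑ l, g x (r y l) = g (f x) y) →
      ∀ ρ : ℝ, 0 < ρ → (∀ x y, ¬ E x y → -(2 * ρ) ≤ g x y) →
      ∀ (c : Fin (2 * T.d - 2) → X) (b : X) (n : ℕ),
      (∀ j ≤ n, ∀ i, ¬ E (f^[j] (c i)) b ∧ g (f^[j] (c i)) b ≤ 2 * ρ) →
      ∀ J : ℕ, 1 ≤ J → J ≤ n →
      (Av r)^[n] (fun y => if J * δ' * ρ ≤ ∑ j ∈ range J, ∑ i, g (f^[j] y) (c i) then (1 : ℝ)
        else 0) b ≤ CC / J)
    (J n : ℕ) (hJ1 : 1 ≤ J) (hJn : J ≤ n) (δ : ℝ)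
    (hJδ : CC / J ≤ δ / 2) (s : ℝ) (hs0 : 0 ≤ s) (hs : s + 4 * T.Res = J * (D.L - δ' * T.Res))
    (b₁ b₂ : UV Ω)
    (hb : ‖wd b₁.1 b₂.1‖ = 1) (c₁ c₂ : Ω) (η₁ η₂ : Fin (T.iter J).d → UV Ω)
    (RS₁ : (T.iter J).IsRS b₁.1 c₁ (fun l => (η₁ l).1))
    (RS₂ : (T.iter J).IsRS b₂.1 c₂ (fun l => (η₂ l).1)) (b : UV Ω)
    (hgen : ∀ j ≤ n, ∀ i, ‖wd b.1 ((fU T)^[j] (D.c i)).1‖ = 1) :
    ∃ (c : Ω) (η : Fin (T.iter n).d → UV Ω),
      (T.iter n).IsRS b.1 c (fun l => (η l).1) ∧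
      (1 - δ / 2) * ((T.iter n).d : ℝ) ≤ ((univ.filter fun l => ∃ l',
        ‖wd (η l).1 (η₁ l').1‖ ≤ Real.exp (-s) ∨
        ‖wd (η l).1 (η₂ l').1‖ ≤ Real.exp (-s)).card : ℝ) := by
  have hEq := eqv_equiv hGRN hnat T hgs hTd
  obtain ⟨hρ0, -, hG0, -, -, hcong, hsymm, hrt, hsum, hlow⟩ := hGRN Ω hnat T hgs hTd
  have hne : ∀ (X : UV Ω), ‖wd b.1 X.1‖ = 1 → ¬ eqv X b := by
    intro X hX h
    have h1 := hEq.symm h
    unfold eqv at h1
    rw [h1, norm_zero] at hX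
    exact zero_ne_one hX
  have hgb : ∀ (X : UV Ω), ‖wd b.1 X.1‖ = 1 → gg T X b ≤ 2 * T.Res := by
    intro X hX
    refine gg_le hGRN hnat T hgs hTd ?_
    rw [wd_comm, norm_neg]
    exact hX
  have key := hLLN (UV Ω) (fU T) (rt T) eqv hEq
    (fun x y h => (hcong x y h).2.2.1) hrt (gg T) hsymm
    (fun x x' y h => ((hcong x x' h).2.2.2 y).1) hsum T.Res hρ
    (fun x y h => hlow x y h) D.c b n
    (fun j hj i => ⟨hne _ (hgen j hj i), hgb _ (hgen j hj i)⟩) J hJ1 hJn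
  obtain ⟨c, η, hRS, hAv, hηb⟩ := hTREE Ω T b n
  refine ⟨c, η, hRS, ?_⟩
  rw [hAv] at key
  have hD : 0 < ((T.iter n).d : ℝ) := by
    have : 0 < (T.iter n).d := (T.iter n).hd
    exact_mod_cast this
  set Bad : Finset (Fin (T.iter n).d) := univ.filter fun l =>
    J * δ' * T.Res ≤ ∑ j ∈ range J, ∑ i, gg T ((fU T)^[j] (η l)) (D.c i) with hBad
  have hBadc : (Bad.card : ℝ) ≤ δ / 2 * ((T.iter n).d : ℝ) := by
    rw [Finset.sum_boole, div_le_iff₀ hD] at key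
    refine le_trans ?_ (key.trans (mul_le_mul_of_nonneg_right hJδ hD.le))
    exact le_of_eq (by congr!)
  have hsub : univ \ Bad ⊆ univ.filter fun l => ∃ l',
        ‖wd (η l).1 (η₁ l').1‖ ≤ Real.exp (-s) ∨
        ‖wd (η l).1 (η₂ l').1‖ ≤ Real.exp (-s) := by
    intro l hl
    have hl' : ¬ (J * δ' * T.Res ≤ ∑ j ∈ range J, ∑ i, gg T ((fU T)^[j] (η l)) (D.c i)) :=
      fun h => (mem_sdiff.1 hl).2 (mem_filter.2 ⟨mem_univ _, h⟩)
    push Not at hl'
    rw [mem_filter]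
    refine ⟨mem_univ _, ?_⟩
    refine hCOV Ω hnat T hgs hTd D J b₁ b₂ hb c₁ c₂ η₁ η₂ RS₁ RS₂ (η l) s hs0 ?_ ?_
    · intro j hj i
      have hiter : ∀ (m : ℕ) (X Y : UV Ω), eqv X Y → eqv ((fU T)^[m] X) ((fU T)^[m] Y) := by
        intro m
        induction m with
        | zero => intro X Y h; exact h
        | succ m ih =>
          intro X Y h
          rw [Function.iterate_succ_apply, Function.iterate_succ_apply]
          exact ih _ _ (hcong X Y h).2.2.1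
      have hback : ∀ e : UV Ω, ‖wd b.1 ((fU T)^[n - j] e).1‖ = 1 →
          ¬ eqv ((fU T)^[j] (η l)) e := by
        intro e he h
        have h1 := hiter (n - j) _ _ h
        rw [← Function.iterate_add_apply, Nat.sub_add_cancel (by omega)] at h1
        exact hne _ he (hEq.trans (hEq.symm h1) (hηb l))
      exact hback _ (hgen (n - j) (by omega) i)
    · have h1 : ∑ j ∈ range J, Pool.Agent.E8helper71.CP.Y706.CH.EE D ((fU T)^[j] (η l)) =
          J * D.L - ∑ j ∈ range J, ∑ i, gg T ((fU T)^[j] (η l)) (D.c i) := by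
        unfold Pool.Agent.E8helper71.CP.Y706.CH.EE
        rw [Finset.sum_sub_distrib, Finset.sum_const, Finset.card_range, nsmul_eq_mul]
      rw [h1, hs]
      have h2 : (J : ℝ) * (D.L - δ' * T.Res) = J * D.L - J * δ' * T.Res := by ring
      rw [h2]
      linarith
  have h1 := card_le_card hsub
  have h2 : (univ \ Bad).card + Bad.card = (T.iter n).d := by
    rw [card_sdiff_add_card_eq_card (subset_univ _), card_univ, Fintype.card_fin]
  have h3 : ((univ \ Bad).card : ℝ) + Bad.card = ((T.iter n).d : ℝ) := by exact_mod_cast h2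
  have h4 : ((univ \ Bad).card : ℝ) ≤ ((univ.filter fun l => ∃ l',
        ‖wd (η l).1 (η₁ l').1‖ ≤ Real.exp (-s) ∨
        ‖wd (η l).1 (η₂ l').1‖ ≤ Real.exp (-s)).card : ℝ) := by
    exact_mod_cast h1
  refine le_trans ?_ h4
  linarith

end

/-- the constants -/
theorem constants (d : ℕ) (hd : 2 ≤ d) (CC δ : ℝ) (hCC : 0 ≤ CC) (hδ : 0 < δ) (J₀ : ℕ) :
    ∃ (J n N₀ : ℕ), 1 ≤ J ∧ J₀ ≤ J ∧ J ≤ n ∧ CC / J ≤ δ / 2 ∧ 1 ≤ N₀ ∧
      100 * (d : ℝ) ^ 2 / (d : ℝ) ^ n ≤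
        (δ / (2 * (2 * (d : ℝ) ^ J))) ^ 2 / (4 * ((2 * (d : ℝ) ^ J) ^ 2 + 1)) ∧
      100 * (d : ℝ) ^ 2 * (1 + (d : ℝ) ^ n + 4 * d * J) / N₀ ≤
        (δ / (2 * (2 * (d : ℝ) ^ J))) ^ 2 / (4 * ((2 * (d : ℝ) ^ J) ^ 2 + 1)) := by
  have hd0 : (0 : ℝ) < d := by
    have : 0 < d := by omega
    exact_mod_cast this
  have hd1 : (1 : ℝ) < d := by
    have : 1 < d := by omega
    exact_mod_cast this
  obtain ⟨J', hJ'⟩ := exists_nat_ge (2 * CC / δ + 1)
  obtain ⟨J, hJdef⟩ : ∃ J, J = max J' J₀ := ⟨_, rfl⟩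
  have hJ : 2 * CC / δ + 1 ≤ (J : ℝ) := by
    have : (J' : ℝ) ≤ J := by
      rw [hJdef]
      exact_mod_cast le_max_left _ _
    linarith
  have hJ0 : J₀ ≤ J := by rw [hJdef]; exact le_max_right _ _
  have e1 : (0 : ℝ) ≤ 2 * CC / δ := by positivity
  have hJ1 : (1 : ℝ) ≤ J := by linarith
  set β : ℝ := (δ / (2 * (2 * (d : ℝ) ^ J))) ^ 2 / (4 * ((2 * (d : ℝ) ^ J) ^ 2 + 1)) with hβ
  have hβ0 : 0 < β := by positivity
  obtain ⟨m, hm⟩ := pow_unbounded_of_one_lt (100 * (d : ℝ) ^ 2 / β) hd1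
  have hn : 100 * (d : ℝ) ^ 2 / β ≤ (d : ℝ) ^ (max m J) :=
    hm.le.trans (pow_le_pow_right₀ hd1.le (le_max_left _ _))
  obtain ⟨N, hN⟩ := exists_nat_ge
    (100 * (d : ℝ) ^ 2 * (1 + (d : ℝ) ^ (max m J) + 4 * d * J) / β + 1)
  have e2 : (0 : ℝ) ≤ 100 * (d : ℝ) ^ 2 * (1 + (d : ℝ) ^ (max m J) + 4 * d * J) / β := by
    positivity
  have hN1 : (1 : ℝ) ≤ N := by linarith
  refine ⟨J, max m J, N, by exact_mod_cast hJ1, hJ0, le_max_right _ _, ?_,
    by exact_mod_cast hN1, ?_, ?_⟩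
  · rw [div_le_iff₀ (by linarith)]
    have h1 : 2 * CC / δ ≤ J := by linarith
    rw [div_le_iff₀ hδ] at h1
    linarith
  · rw [div_le_iff₀ (by positivity)]
    rw [div_le_iff₀ hβ0] at hn
    linarith
  · rw [div_le_iff₀ (by linarith)]
    have h1 : 100 * (d : ℝ) ^ 2 * (1 + (d : ℝ) ^ (max m J) + 4 * d * J) / β ≤ N := by linarith
    rw [div_le_iff₀ hβ0] at h1
    linarith

theorem t_COL2 : S_GRN2.{u} → S_LUP.{u} → S_COV2.{u} → S_LLN2.{u} →
    Pool.Agent.E8helper71.CP.Y706.BI.S_TREE.{u} → S_TEST2.{u} → S_COL2.{u} := by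
  classical
  intro hGRN hLUP hCOV hLLN hTREE hTEST d hd δ' δ₀ hδ' hδ₀ J₀
  obtain ⟨δ, hδ, hδ1, hδδ⟩ : ∃ δ : ℝ, 0 < δ ∧ δ ≤ 1 ∧ δ ≤ δ₀ :=
    ⟨min δ₀ 1, lt_min hδ₀ one_pos, min_le_right _ _, min_le_left _ _⟩
  obtain ⟨CC, hCC, hLL⟩ := hLLN d hd δ' hδ'
  obtain ⟨J, n, N₀, hJ1, hJ0, hJn, hJδ, hN01, hβ1, hβ2⟩ := constants d hd CC δ hCC hδ J₀
  refine ⟨J, (δ / (2 * (2 * (d : ℝ) ^ J))) ^ 2 / (2 * ((2 * (d : ℝ) ^ J) ^ 2 + 1)), 2 * d ^ J, N₀,
    hJ0, by
      have : 0 < d := by omega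
      positivity, ?_⟩
  intro Ω _ _ _ hnat T hgs hTd hρ D ι _ p hp hN
  subst hTd
  have hd2 : (2 : ℝ) ≤ T.d := by exact_mod_cast hd
  have hlow := (hGRN Ω hnat T hgs hd).2.2.2.2.2.2.2.2.2
  have hcpos : 0 < 2 * T.d ^ J := by
    have : 0 < T.d := by omega
    positivity
  by_cases htriv : J * (D.L - δ' * T.Res) - 18 * T.Res ≤ 0
  · right
    refine ⟨fun _ => ⟨0, hcpos⟩, ∅, ?_, ?_⟩
    · rw [card_empty, Nat.cast_zero]
      positivity
    · intro i _ j _ hij _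
      have := hlow (p i) (p j) (hp i j hij)
      linarith
  push Not at htriv
  obtain ⟨s₀, hs₀⟩ : ∃ s₀ : ℝ, s₀ = J * (D.L - δ' * T.Res) - 18 * T.Res := ⟨_, rfl⟩
  rw [← hs₀] at htriv
  have hJr : (1 : ℝ) ≤ J := by exact_mod_cast hJ1
  have hLU := hLUP Ω hnat T hgs hd D
  obtain ⟨Q, hQ⟩ : ∃ Q : ℝ, Q = 2 * (T.d : ℝ) ^ J := ⟨_, rfl⟩
  rw [← hQ] at hβ1 hβ2 ⊢
  have hQ1 : 1 ≤ Q := by
    have : (1 : ℝ) ≤ (T.d : ℝ) ^ J := one_le_pow₀ (by linarith)
    linarith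
  obtain ⟨B, -⟩ := exists_fam (Ω := Ω) hnat
  let b₁ : UV Ω := ⟨B.b 0, B.unit 0⟩
  let b₂ : UV Ω := ⟨B.b 1, B.unit 1⟩
  have hb : ‖wd b₁.1 b₂.1‖ = 1 := B.sep 0 1 (by norm_num)
  obtain ⟨c₁, η₁, RS₁, -, -⟩ := hTREE Ω T b₁ J
  obtain ⟨c₂, η₂, RS₂, -, -⟩ := hTREE Ω T b₂ J
  let Idx := Fin (T.iter J).d ⊕ Fin (T.iter J).d
  let A : Idx → UV Ω := Sum.elim η₁ η₂
  have hcardI : Fintype.card Idx = 2 * T.d ^ J := by
    rw [Fintype.card_sum, Fintype.card_fin, HS.iter_d]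
    ring
  have hcardR : (Fintype.card Idx : ℝ) = Q := by
    rw [hcardI, hQ]
    push_cast
    ring
  obtain ⟨i0, hi0, hwin⟩ := window (fun x : Idx × Idx => ‖wd (A x.1).1 (A x.2).1‖)
    ((2 * T.d ^ J) ^ 2 + 1) (by rw [Fintype.card_prod, hcardI, ← sq]; omega)
    s₀ (T.Res / (Q ^ 2 + 1)) (by positivity)
  have hi0' : ((i0 : ℝ) + 1) * (T.Res / (Q ^ 2 + 1)) ≤ T.Res := by
    have h1 : ((i0 : ℝ) + 1) ≤ Q ^ 2 + 1 := by
      have : ((i0 + 1 : ℕ) : ℝ) ≤ (((2 * T.d ^ J) ^ 2 + 1 : ℕ) : ℝ) := by exact_mod_cast hi0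
      push_cast at this
      rw [hQ]
      exact this
    rw [mul_div_assoc', div_le_iff₀ (by positivity)]
    nlinarith
  obtain ⟨s₁, hs₁⟩ : ∃ s₁ : ℝ, s₁ = s₀ + i0 * (T.Res / (Q ^ 2 + 1)) := ⟨_, rfl⟩
  obtain ⟨s₂, hs₂⟩ : ∃ s₂ : ℝ, s₂ = s₀ + (i0 + 1) * (T.Res / (Q ^ 2 + 1)) := ⟨_, rfl⟩
  rw [← hs₁, ← hs₂] at hwin
  have hw0 : 0 < T.Res / (Q ^ 2 + 1) := by positivity
  have hs12 : s₂ - s₁ = T.Res / (Q ^ 2 + 1) := by
    rw [hs₁, hs₂]
    ring
  have hs1low : s₀ ≤ s₁ := by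
    rw [hs₁]
    have : (0 : ℝ) ≤ i0 * (T.Res / (Q ^ 2 + 1)) := by positivity
    linarith
  have hs10 : 0 ≤ s₁ := htriv.le.trans hs1low
  have hs2up : s₂ ≤ s₀ + T.Res := by
    rw [hs₂]
    linarith
  obtain ⟨s, hs⟩ : ∃ s : ℝ, s = J * (D.L - δ' * T.Res) - 4 * T.Res := ⟨_, rfl⟩
  have hs4 : s + 4 * T.Res = J * (D.L - δ' * T.Res) := by rw [hs]; ring
  have hs2s : s₂ ≤ s := by
    rw [hs]
    linarith
  have hs0 : 0 ≤ s := by
    rw [hs]
    linarith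
  have hs2J' : s₂ ≤ 4 * T.d * J * T.Res := by
    have h1 : (J : ℝ) * (D.L - δ' * T.Res) ≤ J * (4 * T.d * T.Res) := by
      apply mul_le_mul_of_nonneg_left _ (by linarith)
      have : 0 ≤ δ' * T.Res := by positivity
      linarith
    have h2 : (J : ℝ) * (4 * T.d * T.Res) = 4 * T.d * J * T.Res := by ring
    linarith
  have hlt : s₁ < s₂ := by linarith
  -- classes of the points `A a`
  have hultra : ∀ (X Y Z : UV Ω) (e : ℝ), ‖wd X.1 Y.1‖ < e → ‖wd Y.1 Z.1‖ < e →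
      ‖wd X.1 Z.1‖ < e := fun X Y Z e h1 h2 =>
    lt_of_le_of_lt (wd_ultra X.2 Z.2 Y.2) (max_lt h1 h2)
  have hcm : ∀ X Y : UV Ω, ‖wd X.1 Y.1‖ = ‖wd Y.1 X.1‖ := fun X Y => by
    rw [wd_comm, norm_neg]
  let r : Setoid Idx :=
    { r := fun a a' => ‖wd (A a).1 (A a').1‖ < Real.exp (-s₁)
      iseqv := ⟨fun a => by rw [wd_self, norm_zero]; exact Real.exp_pos _,
        fun {a a'} h => by rw [hcm]; exact h, fun {a a' a''} h1 h2 => hultra _ _ _ _ h1 h2⟩ }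
  let Qt := Quotient r
  have hfinQ : Fintype Qt := Fintype.ofFinite _
  have hQtc : (Fintype.card Qt : ℝ) ≤ Q := by
    rw [← hcardR]
    exact_mod_cast Fintype.card_le_of_surjective (Quotient.mk r) Quotient.mk_surjective
  have hout1 : ∀ a : Idx, ‖wd (A a).1 (A (Quotient.mk r a).out).1‖ < Real.exp (-s₁) := by
    intro a
    rw [hcm]
    exact Quotient.mk_out a
  have hout2 : ∀ t t' : Qt, ‖wd (A t.out).1 (A t'.out).1‖ < Real.exp (-s₁) → t = t' :=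
    fun t t' h => Quotient.out_equiv_out.1 h
  set Bd : Finset ι := univ.filter fun i => ∀ a : Idx, ¬ ‖wd (p i).1 (A a).1‖ < Real.exp (-s₁)
    with hBd
  by_cases hBdc : (Bd.card : ℝ) ≤ δ * Fintype.card ι
  · -- the colouring
    right
    let e : Idx ≃ Fin (2 * T.d ^ J) := Fintype.equivFinOfCardEq hcardI
    let χ : ι → Fin (2 * T.d ^ J) := fun i =>
      if h : ∃ a : Idx, ‖wd (p i).1 (A a).1‖ < Real.exp (-s₁) then e h.choose else ⟨0, hcpos⟩
    refine ⟨χ, Bd, hBdc.trans (mul_le_mul_of_nonneg_right hδδ (by positivity)), ?_⟩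
    intro i hi j hj hij hχ
    have hi' : ∃ a : Idx, ‖wd (p i).1 (A a).1‖ < Real.exp (-s₁) := by
      by_contra h
      push Not at h
      exact hi (mem_filter.2 ⟨mem_univ _, fun a => not_lt.2 (h a)⟩)
    have hj' : ∃ a : Idx, ‖wd (p j).1 (A a).1‖ < Real.exp (-s₁) := by
      by_contra h
      push Not at h
      exact hj (mem_filter.2 ⟨mem_univ _, fun a => not_lt.2 (h a)⟩)
    have hχ' : e hi'.choose = e hj'.choose := by
      have e1 : χ i = e hi'.choose := dif_pos hi'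
      have e2 : χ j = e hj'.choose := dif_pos hj'
      rw [← e1, ← e2]
      exact hχ
    have hχ2 := e.injective hχ'
    have h1 := hi'.choose_spec
    have h2 := hj'.choose_spec
    rw [← hχ2, hcm] at h2
    have h3 := gg_ge hGRN hnat T hgs hd (hp i j hij) (hultra _ _ _ _ h1 h2)
    linarith
  · -- the energy is large
    left
    push Not at hBdc
    have hcN : (1 : ℝ) ≤ Fintype.card ι := by
      have : 1 ≤ Fintype.card ι := hN01.trans hN
      exact_mod_cast this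
    have hne : Nonempty ι := by
      rw [← Fintype.card_pos_iff]
      exact lt_of_lt_of_le (by omega) (hN01.trans hN)
    let P : Qt → ℕ := fun t => (univ.filter fun i => ‖wd (p i).1 (A t.out).1‖ <
      Real.exp (-s₁)).card
    have hPsum : ((∑ t, P t : ℕ) : ℝ) + Bd.card ≤ Fintype.card ι := by
      have h1 : (∑ t, P t) = (univ.biUnion fun t : Qt => univ.filter fun i =>
          ‖wd (p i).1 (A t.out).1‖ < Real.exp (-s₁)).card := by
        rw [card_biUnion]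
        intro t _ t' _ htt
        rw [Function.onFun, Finset.disjoint_left]
        intro i h1 h2
        apply htt
        apply hout2
        have h1' := (mem_filter.1 h1).2
        rw [hcm] at h1'
        exact hultra _ _ _ _ h1' (mem_filter.1 h2).2
      have h2 : Disjoint (univ.biUnion fun t : Qt => univ.filter fun i =>
          ‖wd (p i).1 (A t.out).1‖ < Real.exp (-s₁)) Bd := by
        rw [Finset.disjoint_left]
        intro i h1 h2
        obtain ⟨t, -, ht⟩ := mem_biUnion.1 h1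
        exact (mem_filter.1 h2).2 _ (mem_filter.1 ht).2
      have h3 := card_union_of_disjoint h2
      have h4 := card_le_univ ((univ.biUnion fun t : Qt => univ.filter fun i =>
          ‖wd (p i).1 (A t.out).1‖ < Real.exp (-s₁)) ∪ Bd)
      rw [h3, ← h1] at h4
      exact_mod_cast h4
    -- generic indices
    obtain ⟨E, hE⟩ := bad_finite B
      (((range (n + 1)) ×ˢ (univ : Finset (Fin (2 * T.d - 2)))).image
        fun j => ((fU T)^[j.1] (D.c j.2)).1) (by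
        intro U hU
        rw [mem_image] at hU
        obtain ⟨j, -, rfl⟩ := hU
        exact ((fU T)^[j.1] (D.c j.2)).2)
    let It : Qt → Set ℕ := fun t => {i | ∃ (c : Ω) (η : Fin (T.iter n).d → UV Ω),
      (T.iter n).IsRS (B.b i) c (fun l => (η l).1) ∧
      ((P t : ℝ) / Fintype.card ι + δ / (2 * Q)) * ((T.iter n).d : ℝ) ≤
        ((univ.filter fun l => ‖wd (η l).1 (A t.out).1‖ ≤ Real.exp (-s₂)).card : ℝ)}
    have hcover : ∀ i, i ∉ E → ∃ t, i ∈ It t := by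
      intro i hi
      obtain ⟨c, η, hRS, hcnt⟩ := generic hGRN hCOV hTREE hnat T hgs hd hρ D δ' CC
        (fun X f r E => hLL X f r E) J n hJ1 hJn δ hJδ s hs0 hs4
        b₁ b₂ hb c₁ c₂ η₁ η₂ RS₁ RS₂ ⟨B.b i, B.unit i⟩ (by
          intro j hj i'
          exact hE i hi _ (mem_image.2 ⟨(j, i'), mem_product.2
            ⟨mem_range.2 (by omega), mem_univ _⟩, rfl⟩))
      have hD : 0 < ((T.iter n).d : ℝ) := by
        have : 0 < (T.iter n).d := (T.iter n).hd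
        exact_mod_cast this
      have hM : ((univ.filter fun l => ∃ l',
          ‖wd (η l).1 (η₁ l').1‖ ≤ Real.exp (-s) ∨
          ‖wd (η l).1 (η₂ l').1‖ ≤ Real.exp (-s)).card : ℝ) ≤
          ∑ t : Qt, ((univ.filter fun l => ‖wd (η l).1 (A t.out).1‖ ≤
            Real.exp (-s₂)).card : ℝ) := by
        have hexp : Real.exp (-s) ≤ Real.exp (-s₂) :=
          Real.exp_le_exp.2 (by linarith)
        have h1 : (univ.filter fun l => ∃ l',
          ‖wd (η l).1 (η₁ l').1‖ ≤ Real.exp (-s) ∨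
          ‖wd (η l).1 (η₂ l').1‖ ≤ Real.exp (-s)) ⊆
          univ.biUnion fun t : Qt => univ.filter fun l => ‖wd (η l).1 (A t.out).1‖ ≤
            Real.exp (-s₂) := by
          intro l hl
          obtain ⟨l', hl'⟩ := (mem_filter.1 hl).2
          have h2 : ∃ a : Idx, ‖wd (η l).1 (A a).1‖ ≤ Real.exp (-s₂) := by
            rcases hl' with h | h
            · exact ⟨Sum.inl l', h.trans hexp⟩
            · exact ⟨Sum.inr l', h.trans hexp⟩
          obtain ⟨a, ha⟩ := h2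
          refine mem_biUnion.2 ⟨Quotient.mk r a, mem_univ _, mem_filter.2 ⟨mem_univ _, ?_⟩⟩
          have h3 := hwin (a, (Quotient.mk r a).out) (hout1 a)
          exact (wd_ultra (η l).2 (A (Quotient.mk r a).out).2 (A a).2).trans (max_le ha h3)
        have h2 := (card_le_card h1).trans card_biUnion_le
        exact_mod_cast h2
      obtain ⟨t, ht⟩ := pick (fun t : Qt => ((univ.filter fun l => ‖wd (η l).1 (A t.out).1‖ ≤
            Real.exp (-s₂)).card : ℝ) / ((T.iter n).d : ℝ))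
        (fun t : Qt => (P t : ℝ) / Fintype.card ι) δ (δ / (2 * Q)) (by
          rw [← Finset.sum_div, le_div_iff₀ hD]
          exact hcnt.trans hM) (by
          rw [← Finset.sum_div, div_lt_iff₀ (by linarith)]
          push_cast at hPsum
          linarith) (by
          rw [mul_div_assoc', div_le_div_iff₀ (by positivity) (by norm_num)]
          nlinarith)
      refine ⟨t, c, η, hRS, ?_⟩
      exact (le_div_iff₀ hD).1 ht
    obtain ⟨t, ht⟩ : ∃ t, (It t).Infinite := by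
      by_contra hcon
      push Not at hcon
      have h1 : (⋃ t, It t).Finite := Set.finite_iUnion fun t => hcon t
      have h2 : (Set.univ : Set ℕ) ⊆ (E : Set ℕ) ∪ ⋃ t, It t := by
        intro i _
        by_cases hi : i ∈ E
        · exact Or.inl hi
        · obtain ⟨t, ht⟩ := hcover i hi
          exact Or.inr (Set.mem_iUnion.2 ⟨t, ht⟩)
      exact Set.infinite_univ ((E.finite_toSet.union h1).subset h2)
    have key := hTEST Ω hnat T hgs hd B n ι p hp (A t.out) s₁ s₂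
      ((P t : ℝ) / Fintype.card ι + δ / (2 * Q)) (δ / (2 * Q)) hs10 hlt (by positivity) (It t) ht
      (fun i hi => hi) (by
        rw [add_sub_cancel_right, div_mul_cancel₀ _ (by linarith)])
    rw [hs12] at key
    obtain ⟨X, hX⟩ : ∃ X : ℝ, X = ∑ i, ∑ j, if i = j then 0 else gg T (p i) (p j) := ⟨_, rfl⟩
    rw [← hX] at key ⊢
    obtain ⟨β, hβ⟩ : ∃ β : ℝ, β = (δ / (2 * Q)) ^ 2 / (4 * (Q ^ 2 + 1)) := ⟨_, rfl⟩
    have k1 : (δ / (2 * Q)) ^ 2 * (T.Res / (Q ^ 2 + 1)) = 4 * β * T.Res := by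
      rw [hβ]
      field_simp
    have k2 : (δ / (2 * Q)) ^ 2 / (2 * (Q ^ 2 + 1)) = 2 * β := by
      rw [hβ]
      field_simp
      ring
    rw [← hβ] at hβ1 hβ2
    rw [k1] at key
    rw [k2]
    have hN' : (N₀ : ℝ) ≤ Fintype.card ι := by exact_mod_cast hN
    have hN0' : (0 : ℝ) < N₀ := by
      have : 0 < N₀ := by omega
      exact_mod_cast this
    have k3 : 100 * (T.d : ℝ) ^ 2 * (T.Res + T.Res * (T.d : ℝ) ^ n + s₂) / Fintype.card ι ≤
        β * T.Res := by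
      have h1 : 100 * (T.d : ℝ) ^ 2 * (T.Res + T.Res * (T.d : ℝ) ^ n + s₂) / Fintype.card ι ≤
          ((100 * (T.d : ℝ) ^ 2 * (1 + (T.d : ℝ) ^ n + 4 * T.d * J)) * T.Res) / N₀ := by
        have h2 : T.Res + T.Res * (T.d : ℝ) ^ n + s₂ ≤
            (1 + (T.d : ℝ) ^ n + 4 * T.d * J) * T.Res := by linarith
        have h3 : 100 * (T.d : ℝ) ^ 2 * (T.Res + T.Res * (T.d : ℝ) ^ n + s₂) ≤
            (100 * (T.d : ℝ) ^ 2 * (1 + (T.d : ℝ) ^ n + 4 * T.d * J)) * T.Res := by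
          calc 100 * (T.d : ℝ) ^ 2 * (T.Res + T.Res * (T.d : ℝ) ^ n + s₂)
              ≤ 100 * (T.d : ℝ) ^ 2 * ((1 + (T.d : ℝ) ^ n + 4 * T.d * J) * T.Res) :=
                mul_le_mul_of_nonneg_left h2 (by positivity)
            _ = _ := by ring
        exact div_le_div₀ (by positivity) h3 hN0' hN'
      refine h1.trans ?_
      rw [mul_div_right_comm]
      exact mul_le_mul_of_nonneg_right hβ2 hρ.le
    have k4 : 100 * (T.d : ℝ) ^ 2 * T.Res / (T.d : ℝ) ^ n ≤ β * T.Res := by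
      rw [mul_div_right_comm]
      exact mul_le_mul_of_nonneg_right hβ1 hρ.le
    have k5 : 2 * β * T.Res ≤ X / (Fintype.card ι : ℝ) ^ 2 := by linarith
    rw [le_div_iff₀ (by positivity)] at k5
    exact k5

end Pool.Agent.E8helper71.CP.Y167.CH
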